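import Pool.Agent.GRA.StmtsK
import Pool.Agent.Helper39_GRA.KEX

/-!
# GRA, row KNZ: nonvanishing
-/

set_option autoImplicit false

open MeasureTheory Matrix Finset
open scoped ComplexConjugate

namespace Pool.Agent.GRA.H3N

open Pool.Agent.GRA Pool.Agent.Helper64_FR Pool.Agent.UTR Pool.Agent.BSE

variable {n : ℕ}

/-- reduction of the degree -/
theorem reduce (k : ℕ) (γ : ℕ → ℂ) (h : ∑ j ∈ range (k + 1), γ j * (-1) ^ (k - j) = 0) :
    ∃ c : ℕ → ℂ, ∀ x : ℂ, ∑ j ∈ range (k + 1), γ j * x ^ j * (1 - x) ^ (k - j) =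
      ∑ j ∈ range k, c j * x ^ j := by
  set p : Polynomial ℂ := ∑ j ∈ range (k + 1),
    Polynomial.C (γ j) * Polynomial.X ^ j * (1 - Polynomial.X) ^ (k - j) with hp
  have hd1 : (1 - Polynomial.X : Polynomial ℂ).natDegree ≤ 1 := by
    apply (Polynomial.natDegree_sub_le _ _).trans
    simp
  have hdeg : p.natDegree ≤ k := by
    rw [hp]
    apply Polynomial.natDegree_sum_le_of_forall_le
    intro j hj
    have hj' : j ≤ k := by
      rw [Finset.mem_range] at hj
      omega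
    have h1 : (Polynomial.C (γ j) * Polynomial.X ^ j : Polynomial ℂ).natDegree ≤ j :=
      Polynomial.natDegree_C_mul_X_pow_le _ _
    have h2 : ((1 - Polynomial.X : Polynomial ℂ) ^ (k - j)).natDegree ≤ (k - j) * 1 :=
      Polynomial.natDegree_pow_le_of_le _ hd1
    have h3 := Polynomial.natDegree_mul_le
      (p := Polynomial.C (γ j) * Polynomial.X ^ j) (q := (1 - Polynomial.X : Polynomial ℂ) ^ (k - j))
    omega
  have hcoeff : p.coeff k = 0 := by
    rw [← h, hp, Polynomial.finsetSum_coeff]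
    apply Finset.sum_congr rfl
    intro j hj
    have hj' : j ≤ k := by
      rw [Finset.mem_range] at hj
      omega
    rw [mul_assoc, Polynomial.coeff_C_mul]
    congr 1
    have h1 : k = (k - j) + j := by omega
    rw [mul_comm, h1, Polynomial.coeff_mul_X_pow, ← h1]
    have h2 := Polynomial.coeff_pow_of_natDegree_le (m := k - j) hd1
    rw [mul_one] at h2
    rw [h2]
    congr 1
    simp [Polynomial.coeff_one]
  refine ⟨p.coeff, fun x => ?_⟩
  have h1 : p.eval x = ∑ j ∈ range (k + 1), γ j * x ^ j * (1 - x) ^ (k - j) := by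
    rw [hp, Polynomial.eval_finsetSum]
    apply Finset.sum_congr rfl
    intro j _
    simp
  rw [← h1, Polynomial.eval_eq_sum_range' (n := k + 1) (by omega), Finset.sum_range_succ, hcoeff,
    zero_mul, add_zero]

theorem unit_col (g : UU n) (l : Fin n) : ∑ i, ‖(g : Matrix (Fin n) (Fin n) ℂ) i l‖ ^ 2 = 1 := by
  have h1 : (star (g : Matrix (Fin n) (Fin n) ℂ) * (g : Matrix (Fin n) (Fin n) ℂ)) l l = 1 := by
    rw [Matrix.mem_unitaryGroup_iff'.mp g.2, Matrix.one_apply_eq]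
  rw [Matrix.mul_apply] at h1
  have h2 : ∀ i, star (g : Matrix (Fin n) (Fin n) ℂ) l i * (g : Matrix (Fin n) (Fin n) ℂ) i l =
      ((‖(g : Matrix (Fin n) (Fin n) ℂ) i l‖ ^ 2 : ℝ) : ℂ) := by
    intro i
    rw [Matrix.star_apply]
    change conj _ * _ = _
    rw [mul_comm, Complex.mul_conj, Complex.normSq_eq_norm_sq]
  simp only [h2] at h1
  exact_mod_cast h1

theorem knz (hKEX : KEXStmt) (hKZO : KZOStmt) : KNZStmt := by
  intro n σ h l m hlm hl hB k h0 h1 hzero
  obtain ⟨γ, z1, z2⟩ := hKZO n σ h l m hlm hl k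
  have e1 := z1 1 1 1 (-1)
  rw [hzero] at e1
  have e2 : ∑ j ∈ range (k + 1), γ j * (-1) ^ (k - j) = 0 := by
    rw [e1]
    apply Finset.sum_congr rfl
    intro j _
    simp
  obtain ⟨c, hc⟩ := reduce k γ e2
  have e3 : ∀ g : UU n, sph σ h l k h
      (rk (fun i => (g : Matrix (Fin n) (Fin n) ℂ) i l)
        (fun i => (g : Matrix (Fin n) (Fin n) ℂ) i l)) =
      ∑ j ∈ range k, c j * ((‖(g : Matrix (Fin n) (Fin n) ℂ) l l‖ ^ 2 : ℝ) : ℂ) ^ j := by
    intro g
    rw [z2 hB _ (unit_col g l), hc]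
  have e4 := (hKEX n σ h l k).2
  have e5 : ∫ g : UU n, (inner ℂ (σ.op g h) h : ℂ) * conj (sph σ h l k h
      (rk (fun i => (g : Matrix (Fin n) (Fin n) ℂ) i l)
        (fun i => (g : Matrix (Fin n) (Fin n) ℂ) i l))) ∂(haarU n) = 0 := by
    have f1 : ∀ g : UU n, (inner ℂ (σ.op g h) h : ℂ) * conj (sph σ h l k h
        (rk (fun i => (g : Matrix (Fin n) (Fin n) ℂ) i l)
          (fun i => (g : Matrix (Fin n) (Fin n) ℂ) i l))) =
        ∑ j ∈ range k, ((inner ℂ (σ.op g h) h : ℂ) * ∏ s : Fin j,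
          (conj ((g : Matrix (Fin n) (Fin n) ℂ) ((fun _ : Fin j => l) s) l) *
            (g : Matrix (Fin n) (Fin n) ℂ) ((fun _ : Fin j => l) s) l)) * conj (c j) := by
      intro g
      rw [e3, map_sum, Finset.mul_sum]
      apply Finset.sum_congr rfl
      intro j _
      rw [Finset.prod_const, Finset.card_univ, Fintype.card_fin, map_mul, map_pow,
        Complex.conj_ofReal]
      have f2 : conj ((g : Matrix (Fin n) (Fin n) ℂ) l l) * (g : Matrix (Fin n) (Fin n) ℂ) l l =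
          ((‖(g : Matrix (Fin n) (Fin n) ℂ) l l‖ ^ 2 : ℝ) : ℂ) := by
        rw [mul_comm, Complex.mul_conj, Complex.normSq_eq_norm_sq]
      rw [f2]
      ring
    simp only [f1]
    rw [integral_finsetSum _ fun j _ => (H39.int_arr σ h l j h _ _).mul_const _]
    apply Finset.sum_eq_zero
    intro j hj
    rw [integral_mul_const]
    have f3 : ∫ g : UU n, (inner ℂ (σ.op g h) h : ℂ) * ∏ s : Fin j,
          (conj ((g : Matrix (Fin n) (Fin n) ℂ) ((fun _ : Fin j => l) s) l) *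
            (g : Matrix (Fin n) (Fin n) ℂ) ((fun _ : Fin j => l) s) l) ∂(haarU n) = 0 :=
      h0 j (Finset.mem_range.mp hj) (fun _ => l) (fun _ => l)
    rw [f3, zero_mul]
  rw [e5] at e4
  have e6 : ∑ I : Fin k → Fin n, ∑ J : Fin k → Fin n, ‖arr σ h l k h I J‖ ^ 2 = 0 := by
    exact_mod_cast e4
  obtain ⟨I, J, hIJ⟩ := h1
  rw [Finset.sum_eq_zero_iff_of_nonneg
    (fun _ _ => Finset.sum_nonneg fun _ _ => sq_nonneg _)] at e6
  have e7 := e6 I (Finset.mem_univ _)
  rw [Finset.sum_eq_zero_iff_of_nonneg (fun _ _ => sq_nonneg _)] at e7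
  have e8 := e7 J (Finset.mem_univ _)
  exact hIJ (norm_eq_zero.mp (pow_eq_zero_iff (two_ne_zero) |>.mp e8))

end Pool.Agent.GRA.H3N
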