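import Pool.Agent.GRA.StmtsK
import Pool.Agent.Helper64_FR.FIX
import Pool.Agent.Helper3_BSE.SPN

/-!
# GRA, row KW1: the weights of the Bose representations
-/

set_option autoImplicit false

open MeasureTheory Matrix Finset Filter Topology
open scoped ComplexConjugate

namespace Pool.Agent.GRA.H3

open Pool.Agent.Helper64_FR Pool.Agent.UTR Pool.Agent.BSE Pool.Agent.GRA

variable {n : ℕ}

/-- phase on the set `S` -/
noncomputable def ph (S : Finset (Fin n)) (θ : ℂ) (j : Fin n) : ℂ :=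
  if j ∈ S then Complex.exp (θ * Complex.I) else 1

theorem conj_ph (S : Finset (Fin n)) (θ : ℝ) (j : Fin n) :
    conj (ph S (θ : ℂ) j) = ph S (-(θ : ℂ)) j := by
  unfold ph
  split_ifs
  · rw [← Complex.exp_conj]
    congr 1
    simp
  · simp

theorem ph_mul_neg (S : Finset (Fin n)) (θ : ℂ) (j : Fin n) : ph S (-θ) j * ph S θ j = 1 := by
  unfold ph
  split_ifs
  · rw [← Complex.exp_add, ← Complex.exp_zero]
    congr 1
    ring
  · simp

/-- the diagonal unitary matrix with the phase `θ` on `S` -/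
noncomputable def gS (S : Finset (Fin n)) (θ : ℝ) : UU n :=
  ⟨Matrix.diagonal (ph S (θ : ℂ)), by
    rw [Matrix.mem_unitaryGroup_iff', Matrix.star_eq_conjTranspose, Matrix.diagonal_conjTranspose,
      Matrix.diagonal_mul_diagonal, ← Matrix.diagonal_one]
    congr 1
    ext j
    rw [Pi.star_apply, ← starRingEnd_apply, conj_ph, ph_mul_neg]⟩

theorem gS_coe (S : Finset (Fin n)) (θ : ℝ) :
    (gS S θ : Matrix (Fin n) (Fin n) ℂ) = Matrix.diagonal (ph S (θ : ℂ)) := rfl

theorem gS_empty (θ : ℝ) : gS (∅ : Finset (Fin n)) θ = 1 := by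
  apply Subtype.ext
  rw [gS_coe]
  change _ = (1 : Matrix (Fin n) (Fin n) ℂ)
  rw [← Matrix.diagonal_one]
  exact congrArg Matrix.diagonal (funext fun j => by simp [ph])

theorem gS_insert {S : Finset (Fin n)} {i : Fin n} (hi : i ∉ S) (θ : ℝ) :
    gS (insert i S) θ = gS {i} θ * gS S θ := by
  apply Subtype.ext
  change (gS (insert i S) θ : Matrix (Fin n) (Fin n) ℂ) =
    (gS {i} θ : Matrix (Fin n) (Fin n) ℂ) * (gS S θ : Matrix (Fin n) (Fin n) ℂ)
  rw [gS_coe, gS_coe, gS_coe, Matrix.diagonal_mul_diagonal]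
  congr 1
  ext j
  unfold ph
  by_cases hj : j = i
  · subst hj
    simp [hi]
  · by_cases hS : j ∈ S
    · simp [hj, hS]
    · simp [hj, hS]

theorem op_gS (hWTD : WTDStmt) (ρ : URep n)
    (D : Matrix (Fin n) (Fin n) ℂ →ₗ[ℂ] (ρ.Sp →L[ℂ] ρ.Sp)) (hD : IsDer ρ D) {ν : Fin n → ℝ}
    {v : ρ.Sp} (hv : wt ρ D ν v) (θ : ℝ) (S : Finset (Fin n)) :
    ρ.op (gS S θ) v = Complex.exp (((∑ i ∈ S, ν i : ℝ) : ℂ) * θ * Complex.I) • v := by
  classical
  induction S using Finset.induction_on with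
  | empty =>
    rw [gS_empty]
    have h1 : ρ.op (1 : UU n) = 1 := by
      unfold URep.op URep.mat
      rw [map_one]
      exact map_one _
    rw [h1]
    simp
  | insert i S hi ih =>
    rw [gS_insert hi, FIX.op_mul]
    change ρ.op (gS {i} θ) (ρ.op (gS S θ) v) = _
    rw [ih, map_smul]
    have h1 := (hWTD n ρ D hD i v (ν i)).mp (hv i) θ (gS {i} θ) (by
      rw [gS_coe]
      congr 1
      ext j
      simp [ph])
    rw [h1, smul_smul, ← Complex.exp_add, Finset.sum_insert hi]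
    congr 2
    push_cast
    ring

/-- the trigonometric polynomial -/
noncomputable def FF {N : ℕ} (k : ℕ) (a : Fin N → ℂ) (u v' : Fin N → Fin n → ℂ)
    (M : Matrix (Fin n) (Fin n) ℂ) (A : Finset (Fin n)) (θ : ℂ) : ℂ :=
  ∑ t, a t * (∑ i, ∑ j, conj (v' t i) * (ph A (-θ) i * M i j * ph A θ j) * u t j) ^ k

theorem ph_diff (A : Finset (Fin n)) (j : Fin n) : Differentiable ℂ (fun θ => ph A θ j) := by
  unfold ph
  split_ifs
  · fun_prop
  · fun_prop

theorem ph_diff' (A : Finset (Fin n)) (j : Fin n) : Differentiable ℂ (fun θ => ph A (-θ) j) :=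
  (ph_diff A j).comp (differentiable_id.neg)

theorem FF_diff {N : ℕ} (k : ℕ) (a : Fin N → ℂ) (u v' : Fin N → Fin n → ℂ)
    (M : Matrix (Fin n) (Fin n) ℂ) (A : Finset (Fin n)) : Differentiable ℂ (FF k a u v' M A) := by
  unfold FF
  apply Differentiable.fun_sum
  intro t _
  apply Differentiable.const_mul
  apply Differentiable.pow
  apply Differentiable.fun_sum
  intro i _
  apply Differentiable.fun_sum
  intro j _
  apply Differentiable.mul_const
  apply Differentiable.const_mul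
  exact ((ph_diff' A i).mul_const _).mul (ph_diff A j)

theorem eq_of_real {F G : ℂ → ℂ} (hF : Differentiable ℂ F) (hG : Differentiable ℂ G)
    (h : ∀ x : ℝ, F x = G x) : F = G := by
  apply AnalyticOnNhd.eq_of_frequently_eq (z₀ := 0)
  · exact fun z _ => hF.analyticAt z
  · exact fun z _ => hG.analyticAt z
  · have h1 : Tendsto (fun m : ℕ => (((1 / ((m : ℝ) + 1) : ℝ)) : ℂ)) atTop (𝓝[≠] 0) := by
      rw [tendsto_nhdsWithin_iff]
      constructor
      · have := (Complex.continuous_ofReal.tendsto 0).comp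
          (tendsto_one_div_add_atTop_nhds_zero_nat (𝕜 := ℝ))
        rw [Complex.ofReal_zero] at this
        exact this
      · filter_upwards with m
        have h2 : (0 : ℝ) < 1 / ((m : ℝ) + 1) := by positivity
        simp only [Set.mem_compl_iff, Set.mem_singleton_iff]
        exact_mod_cast h2.ne'
    exact h1.frequently (Frequently.of_forall fun m => h _)

theorem ph_le (A : Finset (Fin n)) (j : Fin n) {y : ℝ} (hy : 0 ≤ y) :
    ‖ph A (-(Complex.I * y)) j‖ ≤ Real.exp y ∧ ‖ph A (-(-(Complex.I * y))) j‖ ≤ 1 := by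
  have h0 : (1 : ℝ) ≤ Real.exp y := Real.one_le_exp hy
  unfold ph
  split_ifs
  · constructor
    · rw [Complex.norm_exp]
      apply le_of_eq
      congr 1
      simp
    · rw [Complex.norm_exp]
      apply Real.exp_le_one_iff.mpr
      simp
      exact hy
  · constructor
    · simpa using h0
    · simp

theorem FF_bound {N : ℕ} (k : ℕ) (a : Fin N → ℂ) (u v' : Fin N → Fin n → ℂ)
    (M : Matrix (Fin n) (Fin n) ℂ) (A : Finset (Fin n)) : ∃ C : ℝ, ∀ y : ℝ, 0 ≤ y →
      ‖FF k a u v' M A (-(Complex.I * y))‖ ≤ C * Real.exp (k * y) := by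
  refine ⟨∑ t, ‖a t‖ * (∑ i, ∑ j, ‖v' t i‖ * ‖M i j‖ * ‖u t j‖) ^ k, fun y hy => ?_⟩
  unfold FF
  rw [Finset.sum_mul]
  refine (norm_sum_le _ _).trans (Finset.sum_le_sum fun t _ => ?_)
  rw [norm_mul, norm_pow, mul_assoc]
  apply mul_le_mul_of_nonneg_left _ (norm_nonneg _)
  have h1 : Real.exp (k * y) = Real.exp y ^ k := by rw [← Real.exp_nat_mul]
  rw [h1, ← mul_pow]
  apply pow_le_pow_left₀ (norm_nonneg _)
  rw [Finset.sum_mul]
  refine (norm_sum_le _ _).trans (Finset.sum_le_sum fun i _ => ?_)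
  rw [Finset.sum_mul]
  refine (norm_sum_le _ _).trans (Finset.sum_le_sum fun j _ => ?_)
  rw [norm_mul, norm_mul, norm_mul, norm_mul, RCLike.norm_conj]
  obtain ⟨h2, -⟩ := ph_le A j hy
  obtain ⟨-, h3⟩ := ph_le A i hy
  have h4 : ‖ph A (-(-(Complex.I * y))) i‖ * ‖M i j‖ * ‖ph A (-(Complex.I * y)) j‖ ≤
      1 * ‖M i j‖ * Real.exp y := by gcongr
  calc ‖v' t i‖ * (‖ph A (-(-(Complex.I * y))) i‖ * ‖M i j‖ * ‖ph A (-(Complex.I * y)) j‖) *
        ‖u t j‖ ≤ ‖v' t i‖ * (1 * ‖M i j‖ * Real.exp y) * ‖u t j‖ := by gcongr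
    _ = ‖v' t i‖ * ‖M i j‖ * ‖u t j‖ * Real.exp y := by ring

theorem kw1 (hWTD : WTDStmt) : KW1Stmt := by
  classical
  intro n k ρ D hD hB ν v hv0 hv
  obtain ⟨p, q, hpq, T, hT⟩ := hB
  set A : Finset (Fin n) := Finset.univ.filter (fun i => 0 < ν i) with hA
  have hs : ∑ i, max (ν i) 0 = ∑ i ∈ A, ν i := by
    rw [hA, Finset.sum_filter]
    apply Finset.sum_congr rfl
    intro i _
    split_ifs with h
    · exact max_eq_left h.le
    · exact max_eq_right (not_lt.mp h)
  rw [hs]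
  set s : ℝ := ∑ i ∈ A, ν i with hsdef
  have hv0' : v.ofLp ≠ 0 := by
    intro h
    apply hv0
    ext i
    exact congrFun h i
  obtain ⟨N, a, u, v', -, hTv⟩ := Pool.Agent.BSE.H3.spn n k ρ p q hpq T hT v.ofLp
  obtain ⟨M, hM⟩ : ∃ M, T v.ofLp M ≠ 0 := by
    by_contra hcon
    push Not at hcon
    apply hv0'
    apply hT.inj
    rw [map_zero]
    exact funext hcon
  -- equality on the real line
  have hreal : ∀ θ : ℝ, FF k a u v' M A (θ : ℂ) =
      Complex.exp ((s : ℂ) * θ * Complex.I) * T v.ofLp M := by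
    intro θ
    have h1 := op_gS hWTD ρ D hD hv θ A
    have h2 : ρ.mat (gS A θ) *ᵥ v.ofLp = Complex.exp ((s : ℂ) * θ * Complex.I) • v.ofLp := by
      have h3 := congrArg WithLp.ofLp h1
      rw [URep.op, Matrix.ofLp_toEuclideanCLM] at h3
      rw [h3]
      rfl
    have h4 := hT.equiv (gS A θ) v.ofLp M
    rw [h2, map_smul, Pi.smul_apply, smul_eq_mul, hTv (_ * M * _)] at h4
    rw [h4, FF]
    apply Finset.sum_congr rfl
    intro t _
    congr 2
    unfold bil
    apply Finset.sum_congr rfl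
    intro i _
    apply Finset.sum_congr rfl
    intro j _
    congr 2
    have h5 : ((gS A θ)⁻¹ : UU n) = star (gS A θ) := rfl
    have h6 : (((gS A θ)⁻¹ : UU n) : Matrix (Fin n) (Fin n) ℂ) =
        Matrix.diagonal (ph A (-(θ : ℂ))) := by
      rw [h5]
      change star (gS A θ : Matrix (Fin n) (Fin n) ℂ) = _
      rw [gS_coe, Matrix.star_eq_conjTranspose, Matrix.diagonal_conjTranspose]
      congr 1
      ext j
      rw [Pi.star_apply, ← starRingEnd_apply, conj_ph]
    rw [h6, gS_coe, Matrix.mul_diagonal, Matrix.diagonal_mul]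
  have hall : FF k a u v' M A = fun θ => Complex.exp ((s : ℂ) * θ * Complex.I) * T v.ofLp M := by
    apply eq_of_real (FF_diff k a u v' M A) (by fun_prop) hreal
  obtain ⟨C, hC⟩ := FF_bound k a u v' M A
  by_contra hcon
  push Not at hcon
  have hTM : 0 < ‖T v.ofLp M‖ := norm_pos_iff.mpr hM
  have hmain : ∀ y : ℝ, 0 ≤ y → Real.exp ((s - k) * y) * ‖T v.ofLp M‖ ≤ C := by
    intro y hy
    have h1 := hC y hy
    rw [hall] at h1
    simp only [norm_mul, Complex.norm_exp] at h1
    have h2 : ((s : ℂ) * (-(Complex.I * y)) * Complex.I).re = s * y := by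
      have : (s : ℂ) * (-(Complex.I * y)) * Complex.I = ((s * y : ℝ) : ℂ) := by
        push_cast
        linear_combination (-(s : ℂ) * y) * Complex.I_sq
      rw [this, Complex.ofReal_re]
    rw [h2] at h1
    have h3 : Real.exp (s * y) = Real.exp ((s - k) * y) * Real.exp (k * y) := by
      rw [← Real.exp_add]
      congr 1
      ring
    rw [h3] at h1
    have h4 : 0 < Real.exp (k * y) := Real.exp_pos _
    have h5 : Real.exp ((s - k) * y) * ‖T v.ofLp M‖ * Real.exp (k * y) ≤ C * Real.exp (k * y) := by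
      linarith
    exact le_of_mul_le_mul_right h5 h4
  have h1 : 0 < s - k := by linarith
  have hC0 : 0 ≤ C := le_trans (by positivity) (hmain 0 le_rfl)
  have h2 := hmain (C / ((s - k) * ‖T v.ofLp M‖)) (by positivity)
  have h3 : (s - k) * (C / ((s - k) * ‖T v.ofLp M‖)) = C / ‖T v.ofLp M‖ := by
    field_simp
  rw [h3] at h2
  have h4 := Real.add_one_le_exp (C / ‖T v.ofLp M‖)
  have h5 : (C / ‖T v.ofLp M‖ + 1) * ‖T v.ofLp M‖ ≤ C :=
    (mul_le_mul_of_nonneg_right h4 hTM.le).trans h2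
  rw [add_mul, div_mul_cancel₀ _ hTM.ne'] at h5
  linarith

end Pool.Agent.GRA.H3
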